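import Mathlib

set_option autoImplicit false

/-!
# MP_923311_co: the Mobius-zero subcomplex of a permutation interval need not be pure

For `σ = 1` and `π = 14532` the complex `Γ(σ, π)` has the facets `{123}` and `{321, 1432}`.
-/

namespace Pool.Agent.Results.MP_923311_co.NotPure

/-- A finite permutation: its length and a permutation of `0, …, len - 1`. -/
structure Pat where
  len : ℕ
  perm : Equiv.Perm (Fin len)

/-- The one-line notation of a permutation (with entries `0, …, len - 1`). -/
def Pat.toList (σ : Pat) : List ℕ := List.ofFn fun i => (σ.perm i : ℕ)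

theorem Pat.toList_injective : Function.Injective Pat.toList := by
  rintro ⟨n, s⟩ ⟨m, p⟩ h
  have hlen : n = m := by simpa [Pat.toList] using congrArg List.length h
  subst hlen
  have h2 : (fun i => (s i : ℕ)) = fun i => (p i : ℕ) := List.ofFn_injective h
  congr
  ext i
  exact congrFun h2 i

instance : DecidableEq Pat := fun σ π =>
  decidable_of_iff (σ.toList = π.toList) Pat.toList_injective.eq_iff

/-- Pattern containment: `π` has a subsequence whose entries are in the same relative order as the
entries of `σ`. -/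
def Contained (σ π : Pat) : Prop :=
  ∃ e : Fin σ.len → Fin π.len, (∀ i j, i < j → e i < e j) ∧
    ∀ i j, σ.perm i < σ.perm j ↔ π.perm (e i) < π.perm (e j)

instance : DecidableRel Contained := fun σ π => by unfold Contained; infer_instance

theorem Contained.len_le {σ π : Pat} (h : Contained σ π) : σ.len ≤ π.len := by
  obtain ⟨e, he, -⟩ := h
  have hmono : StrictMono e := fun i j hij => he i j hij
  simpa using Fintype.card_le_of_injective e hmono.injective

theorem Contained.eq_of_len {σ π : Pat} (h : Contained σ π) (hlen : σ.len = π.len) : σ = π := by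
  obtain ⟨n, s⟩ := σ
  obtain ⟨m, p⟩ := π
  simp only at hlen
  subst hlen
  obtain ⟨e, he, h2⟩ := h
  simp only at e he h2
  have hmono : StrictMono e := fun i j hij => he i j hij
  have hid : e = id := by
    apply (hmono.range_inj strictMono_id).1
    rw [Set.range_id, Set.range_eq_univ]
    exact Finite.surjective_of_injective hmono.injective
  subst hid
  have hs : s = p := by
    have hq : StrictMono (p ∘ s.symm) := by
      intro i j hij
      have := (h2 (s.symm i) (s.symm j)).1 (by simpa using hij)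
      simpa using this
    have hq2 : p ∘ s.symm = id := by
      apply (hq.range_inj strictMono_id).1
      rw [Set.range_id, Set.range_eq_univ]
      exact (p.surjective).comp s.symm.surjective
    ext i
    have := congrFun hq2 (s i)
    simp only [Function.comp_apply, Equiv.symm_apply_apply, id_eq] at this
    rw [this]
  rw [hs]

/-- The pattern poset. -/
instance : PartialOrder Pat where
  le := Contained
  le_refl σ := ⟨id, fun _ _ h => h, fun _ _ => Iff.rfl⟩
  le_trans := by
    rintro σ τ π ⟨e, he, h⟩ ⟨f, hf, g⟩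
    exact ⟨f ∘ e, fun i j hij => hf _ _ (he _ _ hij), fun i j => (h i j).trans (g _ _)⟩
  le_antisymm σ π h h' := h.eq_of_len (le_antisymm h.len_le h'.len_le)

instance : DecidableLE Pat := fun σ π => inferInstanceAs (Decidable (Contained σ π))

theorem len_lt_of_lt {σ π : Pat} (h : σ < π) : σ.len < π.len := by
  have h1 : Contained σ π := h.le
  exact lt_of_le_of_ne h1.len_le fun h2 => h.ne (h1.eq_of_len h2)

theorem finite_Icc (σ π : Pat) : (Set.Icc σ π).Finite := by
  have hfin : (Set.range fun x : Σ k : Fin (π.len + 1), Equiv.Perm (Fin k) =>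
      (⟨x.1.1, x.2⟩ : Pat)).Finite := Set.finite_range _
  refine hfin.subset ?_
  rintro ⟨n, p⟩ ⟨-, h⟩
  have h1 : Contained ⟨n, p⟩ π := h
  exact ⟨⟨⟨n, Nat.lt_succ_of_le h1.len_le⟩, p⟩, rfl⟩

noncomputable instance : LocallyFiniteOrder Pat := LocallyFiniteOrder.ofFiniteIcc finite_Icc

/-- The vertices of `Γ(σ, π)`: the elements `τ` of the open interval `(σ, π)` with `μ(σ, τ) = 0`. -/
def zeroSet (σ π : Pat) : Set Pat :=
  {τ | σ < τ ∧ τ < π ∧ IncidenceAlgebra.mu ℤ σ τ = 0}

/-- The faces of `Γ(σ, π)`: the finite chains of such elements. -/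
def IsFace (σ π : Pat) (C : Finset Pat) : Prop :=
  (∀ τ ∈ C, τ ∈ zeroSet σ π) ∧ ∀ τ ∈ C, ∀ τ' ∈ C, τ ≤ τ' ∨ τ' ≤ τ

/-- The facets of `Γ(σ, π)`: the maximal faces. -/
def IsFacet (σ π : Pat) (C : Finset Pat) : Prop :=
  IsFace σ π C ∧ ∀ D : Finset Pat, IsFace σ π D → C ⊆ D → D = C

/-- `Γ(σ, π)` is pure: all its facets have the same number of elements. -/
def IsPure (σ π : Pat) : Prop :=
  ∀ C D : Finset Pat, IsFacet σ π C → IsFacet σ π D → C.card = D.card

/-! ### The permutations -/

/-- The permutation `1`. -/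
def p1 : Pat := ⟨1, 1⟩
/-- The permutation `12`. -/
def p12 : Pat := ⟨2, 1⟩
/-- The permutation `21`. -/
def p21 : Pat := ⟨2, ⟨![1, 0], ![1, 0], by decide, by decide⟩⟩
/-- The permutation `123`. -/
def p123 : Pat := ⟨3, 1⟩
/-- The permutation `132`. -/
def p132 : Pat := ⟨3, ⟨![0, 2, 1], ![0, 2, 1], by decide, by decide⟩⟩
/-- The permutation `231`. -/
def p231 : Pat := ⟨3, ⟨![1, 2, 0], ![2, 0, 1], by decide, by decide⟩⟩
/-- The permutation `321`. -/
def p321 : Pat := ⟨3, ⟨![2, 1, 0], ![2, 1, 0], by decide, by decide⟩⟩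
/-- The permutation `1342`. -/
def p1342 : Pat := ⟨4, ⟨![0, 2, 3, 1], ![0, 3, 1, 2], by decide, by decide⟩⟩
/-- The permutation `1432`. -/
def p1432 : Pat := ⟨4, ⟨![0, 3, 2, 1], ![0, 3, 2, 1], by decide, by decide⟩⟩
/-- The permutation `14532`. -/
def p14532 : Pat := ⟨5, ⟨![0, 3, 4, 2, 1], ![0, 4, 3, 1, 2], by decide, by decide⟩⟩

/-- To compare a predicate on the permutations below `π` it suffices to consider the lengths
smaller than the length of `π`. -/
theorem Ico_eq (π : Pat) (S : Finset Pat) (hS : ∀ τ ∈ S, τ.len < π.len)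
    (h : ∀ n, n < π.len → ∀ p : Equiv.Perm (Fin n),
      (p1 ≤ ⟨n, p⟩ ∧ (⟨n, p⟩ : Pat) ≤ π) ↔ (⟨n, p⟩ : Pat) ∈ S) : Finset.Ico p1 π = S := by
  ext ⟨n, p⟩
  rw [Finset.mem_Ico]
  constructor
  · rintro ⟨h1, h2⟩
    exact (h n (len_lt_of_lt h2) p).1 ⟨h1, h2.le⟩
  · intro hmem
    have hlt := hS _ hmem
    obtain ⟨h1, h2⟩ := (h n hlt p).2 hmem
    refine ⟨h1, lt_of_le_of_ne h2 ?_⟩
    rintro rfl
    exact lt_irrefl _ hlt

theorem ico_12 : Finset.Ico p1 p12 = {p1} :=
  Ico_eq _ _ (by decide +kernel) (by
    intro n hn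
    change n < 2 at hn
    interval_cases n <;> decide +kernel)

theorem ico_21 : Finset.Ico p1 p21 = {p1} :=
  Ico_eq _ _ (by decide +kernel) (by
    intro n hn
    change n < 2 at hn
    interval_cases n <;> decide +kernel)

theorem ico_123 : Finset.Ico p1 p123 = {p1, p12} :=
  Ico_eq _ _ (by decide +kernel) (by
    intro n hn
    change n < 3 at hn
    interval_cases n <;> decide +kernel)

theorem ico_132 : Finset.Ico p1 p132 = {p1, p12, p21} :=
  Ico_eq _ _ (by decide +kernel) (by
    intro n hn
    change n < 3 at hn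
    interval_cases n <;> decide +kernel)

theorem ico_231 : Finset.Ico p1 p231 = {p1, p12, p21} :=
  Ico_eq _ _ (by decide +kernel) (by
    intro n hn
    change n < 3 at hn
    interval_cases n <;> decide +kernel)

theorem ico_321 : Finset.Ico p1 p321 = {p1, p21} :=
  Ico_eq _ _ (by decide +kernel) (by
    intro n hn
    change n < 3 at hn
    interval_cases n <;> decide +kernel)

theorem ico_1342 : Finset.Ico p1 p1342 = {p1, p12, p21, p123, p132, p231} :=
  Ico_eq _ _ (by decide +kernel) (by
    intro n hn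
    change n < 4 at hn
    interval_cases n <;> decide +kernel)

theorem ico_1432 : Finset.Ico p1 p1432 = {p1, p12, p21, p132, p321} :=
  Ico_eq _ _ (by decide +kernel) (by
    intro n hn
    change n < 4 at hn
    interval_cases n <;> decide +kernel)

/-! ### The values of the Mobius function -/

open IncidenceAlgebra

theorem mu_12 : mu ℤ p1 p12 = -1 := by
  rw [mu_eq_neg_sum_Ico_of_ne (by decide +kernel), ico_12, Finset.sum_singleton, mu_self]

theorem mu_21 : mu ℤ p1 p21 = -1 := by
  rw [mu_eq_neg_sum_Ico_of_ne (by decide +kernel), ico_21, Finset.sum_singleton, mu_self]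

theorem mu_123 : mu ℤ p1 p123 = 0 := by
  rw [mu_eq_neg_sum_Ico_of_ne (by decide +kernel), ico_123,
    Finset.sum_insert (by decide +kernel), Finset.sum_singleton, mu_self, mu_12]
  norm_num

theorem mu_321 : mu ℤ p1 p321 = 0 := by
  rw [mu_eq_neg_sum_Ico_of_ne (by decide +kernel), ico_321,
    Finset.sum_insert (by decide +kernel), Finset.sum_singleton, mu_self, mu_21]
  norm_num

theorem mu_132 : mu ℤ p1 p132 = 1 := by
  rw [mu_eq_neg_sum_Ico_of_ne (by decide +kernel), ico_132,
    Finset.sum_insert (by decide +kernel), Finset.sum_insert (by decide +kernel),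
    Finset.sum_singleton, mu_self, mu_12, mu_21]
  norm_num

theorem mu_231 : mu ℤ p1 p231 = 1 := by
  rw [mu_eq_neg_sum_Ico_of_ne (by decide +kernel), ico_231,
    Finset.sum_insert (by decide +kernel), Finset.sum_insert (by decide +kernel),
    Finset.sum_singleton, mu_self, mu_12, mu_21]
  norm_num

theorem mu_1342 : mu ℤ p1 p1342 = -1 := by
  rw [mu_eq_neg_sum_Ico_of_ne (by decide +kernel), ico_1342,
    Finset.sum_insert (by decide +kernel), Finset.sum_insert (by decide +kernel),
    Finset.sum_insert (by decide +kernel), Finset.sum_insert (by decide +kernel),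
    Finset.sum_insert (by decide +kernel), Finset.sum_singleton, mu_self, mu_12, mu_21, mu_123,
    mu_132, mu_231]
  norm_num

theorem mu_1432 : mu ℤ p1 p1432 = 0 := by
  rw [mu_eq_neg_sum_Ico_of_ne (by decide +kernel), ico_1432,
    Finset.sum_insert (by decide +kernel), Finset.sum_insert (by decide +kernel),
    Finset.sum_insert (by decide +kernel), Finset.sum_insert (by decide +kernel),
    Finset.sum_singleton, mu_self, mu_12, mu_21, mu_132, mu_321]
  norm_num

/-! ### The two facets -/

theorem lt_of_le_of_len {σ π : Pat} (h : σ ≤ π) (hlen : σ.len ≠ π.len) : σ < π :=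
  lt_of_le_of_ne h fun h' => hlen (congrArg Pat.len h')

/-- The elements between `1` and `14532` that are comparable to `123`. -/
theorem comparable_123 (n : ℕ) (hn : n < 5) (p : Equiv.Perm (Fin n)) :
    p1 ≤ ⟨n, p⟩ → (⟨n, p⟩ : Pat) ≤ p14532 → (p123 ≤ ⟨n, p⟩ ∨ (⟨n, p⟩ : Pat) ≤ p123) →
      (⟨n, p⟩ : Pat) ∈ ({p1, p12, p123, p1342} : Finset Pat) := by
  revert p
  interval_cases n <;> decide +kernel

/-- The elements between `1` and `14532` that are comparable to `321` and to `1432`. -/
theorem comparable_321 (n : ℕ) (hn : n < 5) (p : Equiv.Perm (Fin n)) :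
    p1 ≤ ⟨n, p⟩ → (⟨n, p⟩ : Pat) ≤ p14532 → (p321 ≤ ⟨n, p⟩ ∨ (⟨n, p⟩ : Pat) ≤ p321) →
      (p1432 ≤ ⟨n, p⟩ ∨ (⟨n, p⟩ : Pat) ≤ p1432) →
      (⟨n, p⟩ : Pat) ∈ ({p1, p21, p321, p1432} : Finset Pat) := by
  revert p
  interval_cases n <;> decide +kernel

theorem facet_123 : IsFacet p1 p14532 {p123} := by
  constructor
  · constructor
    · intro τ hτ
      rw [Finset.mem_singleton] at hτ
      subst hτ
      exact ⟨lt_of_le_of_len (by decide +kernel) (by decide), lt_of_le_of_len (by decide +kernel)
        (by decide), mu_123⟩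
    · intro τ hτ τ' hτ'
      rw [Finset.mem_singleton] at hτ hτ'
      left
      rw [hτ, hτ']
  · intro D hD hsub
    apply Finset.Subset.antisymm _ hsub
    intro τ hτ
    have h123 : p123 ∈ D := hsub (Finset.mem_singleton_self _)
    obtain ⟨h1, h2, h3⟩ := hD.1 τ hτ
    have h4 := comparable_123 τ.len (len_lt_of_lt h2) τ.perm h1.le h2.le (hD.2 _ h123 _ hτ)
    change τ ∈ ({p1, p12, p123, p1342} : Finset Pat) at h4
    simp only [Finset.mem_insert, Finset.mem_singleton] at h4 ⊢
    rcases h4 with rfl | rfl | rfl | rfl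
    · exact absurd h1 (lt_irrefl _)
    · rw [mu_12] at h3
      exact absurd h3 (by norm_num)
    · rfl
    · rw [mu_1342] at h3
      exact absurd h3 (by norm_num)

theorem facet_321 : IsFacet p1 p14532 {p321, p1432} := by
  constructor
  · constructor
    · intro τ hτ
      rw [Finset.mem_insert, Finset.mem_singleton] at hτ
      rcases hτ with rfl | rfl
      · exact ⟨lt_of_le_of_len (by decide +kernel) (by decide), lt_of_le_of_len
          (by decide +kernel) (by decide), mu_321⟩
      · exact ⟨lt_of_le_of_len (by decide +kernel) (by decide), lt_of_le_of_len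
          (by decide +kernel) (by decide), mu_1432⟩
    · decide +kernel
  · intro D hD hsub
    apply Finset.Subset.antisymm _ hsub
    intro τ hτ
    have h321 : p321 ∈ D := hsub (Finset.mem_insert_self _ _)
    have h1432 : p1432 ∈ D := hsub (Finset.mem_insert_of_mem (Finset.mem_singleton_self _))
    obtain ⟨h1, h2, h3⟩ := hD.1 τ hτ
    have h4 := comparable_321 τ.len (len_lt_of_lt h2) τ.perm h1.le h2.le (hD.2 _ h321 _ hτ)
      (hD.2 _ h1432 _ hτ)
    change τ ∈ ({p1, p21, p321, p1432} : Finset Pat) at h4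
    simp only [Finset.mem_insert, Finset.mem_singleton] at h4 ⊢
    rcases h4 with rfl | rfl | rfl | rfl
    · exact absurd h1 (lt_irrefl _)
    · rw [mu_21] at h3
      exact absurd h3 (by norm_num)
    · exact Or.inl rfl
    · exact Or.inr rfl

/-- There are permutations `σ ≤ π` for which the complex `Γ(σ, π)` is not pure. -/
theorem result : ∃ σ π : Pat, σ ≤ π ∧ ¬ IsPure σ π := by
  refine ⟨p1, p14532, by decide +kernel, fun h => ?_⟩
  have h1 := h _ _ facet_123 facet_321
  exact absurd h1 (by decide +kernel)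

end Pool.Agent.Results.MP_923311_co.NotPure
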